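import Pool.Agent.Q73.SO.DEC
import Pool.Agent.Q73.SO.COV
import Pool.Agent.Q73.SO.U

/-!
# Common lemmas for the project SO
-/

set_option autoImplicit false
open MeasureTheory Filter Topology Complex
open scoped ContDiff FourierTransform SchwartzMap ComplexConjugate

namespace Pool.Agent.Q198.SO

open Pool.Agent.Q73.SO

noncomputable section

variable {d : ℕ}

/-! ### The weight -/

lemma nz_one_le (x k : E d) : 1 ≤ nz x k := by
  unfold nz
  linarith [norm_nonneg x, norm_nonneg k]

lemma nz_pos (x k : E d) : 0 < nz x k := lt_of_lt_of_le one_pos (nz_one_le x k)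

lemma nz_cont : Continuous (fun z : E d × E d => nz z.1 z.2) := by
  unfold nz
  fun_prop

lemma nz_add (x k x' k' : E d) : nz (x + x') (k + k') ≤ nz x k * nz x' k' := by
  unfold nz
  nlinarith [norm_nonneg x, norm_nonneg k, norm_nonneg x', norm_nonneg k', norm_add_le x x', norm_add_le k k',
    mul_nonneg (norm_nonneg x) (norm_nonneg x'), mul_nonneg (norm_nonneg x) (norm_nonneg k'),
    mul_nonneg (norm_nonneg k) (norm_nonneg x'), mul_nonneg (norm_nonneg k) (norm_nonneg k')]

lemma nz_neg (x k : E d) : nz (-x) (-k) = nz x k := by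
  unfold nz
  rw [norm_neg, norm_neg]

lemma nz_shear (c : ℝ) (x k : E d) : nz x k ≤ (1 + |c|) * nz (x - c • k) k := by
  unfold nz
  have h1 : ‖x‖ ≤ ‖x - c • k‖ + |c| * ‖k‖ := by
    have h2 := norm_add_le (x - c • k) (c • k)
    rw [sub_add_cancel, norm_smul, Real.norm_eq_abs] at h2
    exact h2
  nlinarith [abs_nonneg c, norm_nonneg k, norm_nonneg (x - c • k), mul_nonneg (abs_nonneg c) (norm_nonneg (x - c • k))]

lemma nz_shear' (c : ℝ) (x k : E d) : nz (x - c • k) k ≤ (1 + |c|) * nz x k := by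
  unfold nz
  have h1 : ‖x - c • k‖ ≤ ‖x‖ + |c| * ‖k‖ := by
    have h2 := norm_sub_le x (c • k)
    rw [norm_smul, Real.norm_eq_abs] at h2
    exact h2
  nlinarith [abs_nonneg c, norm_nonneg k, norm_nonneg x, mul_nonneg (abs_nonneg c) (norm_nonneg x)]

lemma nz_int {N : ℕ} (hN : 2 * d + 1 ≤ N) :
    Integrable (fun z : E d × E d => (nz z.1 z.2 ^ N)⁻¹) (volume.prod volume) := by
  have h1 : Integrable (fun z : E d × E d => (1 + ‖z‖) ^ (-(N : ℝ))) (volume.prod volume) := by
    have : ((volume : Measure (E d)).prod (volume : Measure (E d))).IsAddHaarMeasure :=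
      Measure.prod.instIsAddHaarMeasure _ _
    apply integrable_one_add_norm
    rw [Module.finrank_prod, finrank_euclideanSpace, Fintype.card_fin]
    have : (d + d : ℕ) < N := by omega
    exact_mod_cast this
  refine Integrable.mono h1 ?_ ?_
  · refine Continuous.aestronglyMeasurable ?_
    exact (nz_cont.pow N).inv₀ fun z => (pow_pos (nz_pos _ _) N).ne'
  · refine Eventually.of_forall fun z => ?_
    have h2 : 0 < nz z.1 z.2 ^ N := pow_pos (nz_pos _ _) N
    rw [Real.norm_of_nonneg (inv_nonneg.2 h2.le), Real.norm_of_nonneg (by positivity), Real.rpow_neg (by positivity),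
      Real.rpow_natCast]
    apply inv_anti₀ (by positivity)
    have h3 : 1 + ‖z‖ ≤ nz z.1 z.2 := by
      unfold nz
      rw [Prod.norm_def]
      have := max_le_add_of_nonneg (norm_nonneg z.1) (norm_nonneg z.2)
      linarith
    gcongr

/-! ### The shear -/

/-- the shear `(x, k) ↦ (x - c k, k)` -/
def sh (c : ℝ) : E d × E d ≃ₜ E d × E d where
  toFun z := (z.1 - c • z.2, z.2)
  invFun z := (z.1 + c • z.2, z.2)
  left_inv z := by simp
  right_inv z := by simp
  continuous_toFun := by fun_prop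
  continuous_invFun := by fun_prop

lemma sh_apply (c : ℝ) (z : E d × E d) : sh c z = (z.1 - c • z.2, z.2) := rfl

lemma sh_mp (c : ℝ) : MeasurePreserving (sh (d := d) c) (volume.prod volume) (volume.prod volume) := by
  have h1 : MeasurePreserving (fun p : E d × E d => (p.1, p.2 - c • p.1)) (volume.prod volume) (volume.prod volume) := by
    refine MeasurePreserving.skew_product (g := fun k x => x - c • k) (MeasurePreserving.id volume) ?_ ?_
    · have : Continuous (fun p : E d × E d => p.2 - c • p.1) := by fun_prop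
      exact this.measurable
    · refine Eventually.of_forall fun k => ?_
      exact (measurePreserving_sub_right volume (c • k)).map_eq
  have h2 := (Measure.measurePreserving_swap (μ := (volume : Measure (E d))) (ν := volume)).comp
    (h1.comp (Measure.measurePreserving_swap (μ := (volume : Measure (E d))) (ν := volume)))
  exact h2

lemma sh_integral (c : ℝ) (f : E d × E d → ℝ) :
    ∫ z, f (sh c z) ∂(volume.prod volume) = ∫ z, f z ∂(volume.prod volume) :=
  (sh_mp c).integral_comp (sh c).measurableEmbedding f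

lemma sh_integrable (c : ℝ) {f : E d × E d → ℝ} (hf : Integrable f (volume.prod volume)) :
    Integrable (fun z => f (sh c z)) (volume.prod volume) :=
  (sh_mp c).integrable_comp_of_integrable hf

/-! ### The evolution -/

lemma sym_norm (t : ℝ) (ξ : E d) : ‖sym t ξ‖ = 1 := by
  unfold sym
  exact Complex.norm_exp_ofReal_mul_I _

lemma chr_norm (k y : E d) : ‖chr k y‖ = 1 := by
  unfold chr
  exact Complex.norm_exp_ofReal_mul_I _

lemma U_eq (t : ℝ) (u : 𝓢(E d, ℂ)) (y : E d) : U t u y = ∫ ξ, chr ξ y * (sym t ξ * 𝓕 u ξ) := by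
  unfold U
  rw [SchwartzMap.fourierInv_coe, Real.fourierInv_eq']
  congr 1
  funext ξ
  rw [SchwartzMap.smulLeftCLM_apply_apply (UU.sym_temp t), smul_eq_mul, smul_eq_mul]
  unfold chr
  rfl

lemma U_bd (u : 𝓢(E d, ℂ)) (t : ℝ) (y : E d) : ‖U t u y‖ ≤ ∫ ξ, ‖𝓕 u ξ‖ := by
  rw [U_eq]
  refine (norm_integral_le_integral_norm _).trans (le_of_eq ?_)
  congr 1
  funext ξ
  rw [norm_mul, norm_mul, chr_norm, sym_norm, one_mul, one_mul]

lemma sym_cont : Continuous (fun z : ℝ × E d => sym z.1 z.2) := by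
  unfold sym
  fun_prop

lemma U_cont (u : 𝓢(E d, ℂ)) : Continuous (fun z : ℝ × E d => U z.1 u z.2) := by
  simp only [U_eq]
  refine continuous_of_dominated (bound := fun ξ => ‖𝓕 u ξ‖) ?_ ?_ (𝓕 u).integrable.norm ?_
  · intro z
    refine Continuous.aestronglyMeasurable ?_
    refine Continuous.mul ?_ (Continuous.mul ?_ (𝓕 u).continuous)
    · exact MOY.chr_cont.comp (by fun_prop : Continuous fun ξ : E d => (ξ, z.2))
    · exact sym_cont.comp (by fun_prop : Continuous fun ξ : E d => (z.1, ξ))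
  · intro z
    refine Eventually.of_forall fun ξ => ?_
    rw [norm_mul, norm_mul, chr_norm, sym_norm, one_mul, one_mul]
  · refine Eventually.of_forall fun ξ => ?_
    refine Continuous.mul ?_ (Continuous.mul ?_ continuous_const)
    · exact MOY.chr_cont.comp (by fun_prop : Continuous fun z : ℝ × E d => (ξ, z.2))
    · exact sym_cont.comp (by fun_prop : Continuous fun z : ℝ × E d => (z.1, ξ))

/-! ### Multiplication by the observation function -/

lemma Bd_temp {a : E d → ℝ} (ha : Bd a) (w : E d) : Function.HasTemperateGrowth (fun y => (a (y + w) : ℂ)) := by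
  have h1 : Function.HasTemperateGrowth a := by
    refine ⟨ha.smooth, fun n => ?_⟩
    obtain ⟨B, hB⟩ := ha.bound n
    exact ⟨0, B, fun x => by rw [pow_zero, mul_one]; exact hB x⟩
  have h2 : Function.HasTemperateGrowth (fun y : E d => y + w) := by fun_prop
  exact Function.Complex.hasTemperateGrowth_ofReal.comp (h1.comp h2)

/-- the Schwartz function `b_t U(t) u` -/
def BU (a : E d → ℝ) (w : E d) (t : ℝ) (u : 𝓢(E d, ℂ)) : 𝓢(E d, ℂ) :=
  SchwartzMap.smulLeftCLM ℂ (fun y => (a (y + w) : ℂ)) (U t u)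

lemma BU_apply {a : E d → ℝ} (ha : Bd a) (w : E d) (t : ℝ) (u : 𝓢(E d, ℂ)) (y : E d) :
    BU a w t u y = (a (y + w) : ℂ) * U t u y := by
  unfold BU
  rw [SchwartzMap.smulLeftCLM_apply_apply (Bd_temp ha w), smul_eq_mul]

/-- the integrand of the observation -/
def ob (a : E d → ℝ) (p q : E d) (v : 𝓢(E d, ℂ)) (t : ℝ) (z : E d × E d) : ℝ :=
  ‖V (fun y => (a (y + p - (4 * Real.pi * t) • q) : ℂ) * U t v y) (z.1 - (4 * Real.pi * t) • z.2) z.2‖ ^ 2

lemma obs_eq (T : ℝ) (a : E d → ℝ) (p q : E d) (v : 𝓢(E d, ℂ)) (z : E d × E d) :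
    obs T a p q v z.1 z.2 = ∫ t in (0 : ℝ)..T, ob a p q v t z := rfl

lemma ob_nonneg (a : E d → ℝ) (p q : E d) (v : 𝓢(E d, ℂ)) (t : ℝ) (z : E d × E d) : 0 ≤ ob a p q v t z := by
  unfold ob
  positivity

lemma ob_BU {a : E d → ℝ} (ha : Bd a) (p q : E d) (v : 𝓢(E d, ℂ)) (t : ℝ) (z : E d × E d) :
    ob a p q v t z = ‖V (BU a (p - (4 * Real.pi * t) • q) t v) (sh (4 * Real.pi * t) z).1 (sh (4 * Real.pi * t) z).2‖ ^ 2 := by
  unfold ob
  have h1 : (fun y => (a (y + p - (4 * Real.pi * t) • q) : ℂ) * U t v y) = BU a (p - (4 * Real.pi * t) • q) t v := by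
    funext y
    rw [BU_apply ha, add_sub_assoc]
  rw [h1]
  rfl

/-- the short time Fourier transform with the variable of integration moved -/
lemma V_shift (f : E d → ℂ) (x k : E d) :
    V f x k = ∫ y, f (y + x) * conj (chr k (y + x)) * (gg y : ℂ) := by
  unfold V
  rw [← integral_add_right_eq_self _ x]
  congr 1
  funext y
  beta_reduce
  rw [add_sub_cancel_right]

lemma gg_int : Integrable (gg (d := d)) := by
  have h1 : Integrable (MOY.GS d) := SchwartzMap.integrable _
  refine (h1.norm).congr (Eventually.of_forall fun y => ?_)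
  simp only
  rw [MOY.GS_apply, Complex.norm_real, Real.norm_of_nonneg (MOY.gg_nonneg y)]

lemma V_cont_gen {X : Type*} [TopologicalSpace X] [FirstCountableTopology X] (F : X → E d → ℂ) (x k : X → E d)
    (hF : Continuous (fun z : X × E d => F z.1 z.2)) (hx : Continuous x) (hk : Continuous k) (B : ℝ)
    (hB : ∀ s y, ‖F s y‖ ≤ B) : Continuous (fun s => V (F s) (x s) (k s)) := by
  simp only [V_shift]
  refine continuous_of_dominated (bound := fun y => B * gg y) ?_ ?_ (gg_int.const_mul B) ?_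
  · intro s
    refine Continuous.aestronglyMeasurable ?_
    refine ((hF.comp (by fun_prop : Continuous fun y : E d => (s, y + x s))).mul
      (Complex.continuous_conj.comp ?_)).mul (Complex.continuous_ofReal.comp MOY.gg_cont)
    exact MOY.chr_cont.comp (by fun_prop : Continuous fun y : E d => (k s, y + x s))
  · intro s
    refine Eventually.of_forall fun y => ?_
    rw [norm_mul, norm_mul, RCLike.norm_conj, chr_norm, mul_one, Complex.norm_real,
      Real.norm_of_nonneg (MOY.gg_nonneg _)]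
    exact mul_le_mul_of_nonneg_right (hB _ _) (MOY.gg_nonneg _)
  · refine Eventually.of_forall fun y => ?_
    refine ((hF.comp (by fun_prop : Continuous fun s : X => (s, y + x s))).mul
      (Complex.continuous_conj.comp ?_)).mul continuous_const
    exact MOY.chr_cont.comp (by fun_prop : Continuous fun s : X => (k s, y + x s))

lemma V_bd (F : E d → ℂ) (x k : E d) (B : ℝ) (hB : ∀ y, ‖F y‖ ≤ B) : ‖V F x k‖ ≤ B * ∫ y : E d, gg y := by
  rw [V_shift, ← integral_const_mul]
  refine norm_integral_le_of_norm_le (gg_int.const_mul B) (Eventually.of_forall fun y => ?_)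
  rw [norm_mul, norm_mul, RCLike.norm_conj, chr_norm, mul_one, Complex.norm_real,
    Real.norm_of_nonneg (MOY.gg_nonneg _)]
  exact mul_le_mul_of_nonneg_right (hB _) (MOY.gg_nonneg _)

lemma bU_bd {a : E d → ℝ} (ha : Bd a) (v : 𝓢(E d, ℂ)) (w y : E d) (t : ℝ) :
    ‖(a w : ℂ) * U t v y‖ ≤ ∫ ξ, ‖𝓕 v ξ‖ := by
  rw [norm_mul, Complex.norm_real, Real.norm_of_nonneg (ha.nonneg w)]
  calc a w * ‖U t v y‖ ≤ 1 * ∫ ξ, ‖𝓕 v ξ‖ :=
        mul_le_mul (ha.le_one w) (U_bd v t y) (norm_nonneg _) zero_le_one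
    _ = _ := one_mul _

lemma ob_cont {a : E d → ℝ} (ha : Bd a) (p q : E d) (v : 𝓢(E d, ℂ)) :
    Continuous (fun s : ℝ × (E d × E d) => ob a p q v s.1 s.2) := by
  have hac : Continuous a := ha.smooth.continuous
  have h1 : Continuous (fun z : (ℝ × (E d × E d)) × E d =>
      (a (z.2 + p - (4 * Real.pi * z.1.1) • q) : ℂ) * U z.1.1 v z.2) := by
    have e0 : Continuous (fun z : (ℝ × (E d × E d)) × E d => z.2 + p - (4 * Real.pi * z.1.1) • q) := by
      have f1 : Continuous (fun z : (ℝ × (E d × E d)) × E d => z.1.1) := continuous_fst.comp continuous_fst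
      exact (continuous_snd.add continuous_const).sub ((continuous_const.mul f1).smul continuous_const)
    have e1 : Continuous (fun z : (ℝ × (E d × E d)) × E d => a (z.2 + p - (4 * Real.pi * z.1.1) • q)) :=
      hac.comp e0
    have f2 : Continuous (fun z : (ℝ × (E d × E d)) × E d => ((z.1.1, z.2) : ℝ × E d)) :=
      (continuous_fst.comp continuous_fst).prodMk continuous_snd
    have e2 := Continuous.comp (g := fun z : ℝ × E d => U z.1 v z.2)
      (f := fun z : (ℝ × (E d × E d)) × E d => ((z.1.1, z.2) : ℝ × E d)) (U_cont v) f2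
    exact (Complex.continuous_ofReal.comp e1).mul e2
  have h2 : Continuous (fun s : ℝ × (E d × E d) => s.2.1 - (4 * Real.pi * s.1) • s.2.2) := by fun_prop
  have h3 : Continuous (fun s : ℝ × (E d × E d) => s.2.2) := by fun_prop
  have h4 := V_cont_gen (X := ℝ × (E d × E d))
    (fun s y => (a (y + p - (4 * Real.pi * s.1) • q) : ℂ) * U s.1 v y)
    (fun s => s.2.1 - (4 * Real.pi * s.1) • s.2.2) (fun s => s.2.2) h1 h2 h3
    (∫ ξ, ‖𝓕 v ξ‖) (fun s y => bU_bd ha v _ _ _)
  exact (h4.norm).pow 2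

lemma ob_bd {a : E d → ℝ} (ha : Bd a) (p q : E d) (v : 𝓢(E d, ℂ)) (t : ℝ) (z : E d × E d) :
    ob a p q v t z ≤ ((∫ ξ, ‖𝓕 v ξ‖) * ∫ y : E d, gg y) ^ 2 := by
  unfold ob
  apply pow_le_pow_left₀ (norm_nonneg _)
  apply V_bd
  intro y
  exact bU_bd ha v _ _ _

/-! ### Jensen's inequality -/

lemma jensen {α : Type*} [MeasurableSpace α] {μ : Measure α} (f w : α → ℝ) (hw : ∀ x, 0 ≤ w x)
    (hwi : Integrable w μ) (h1 : Integrable (fun x => f x * w x) μ) (h2 : Integrable (fun x => f x ^ 2 * w x) μ) :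
    (∫ x, f x * w x ∂μ) ^ 2 ≤ (∫ x, w x ∂μ) * ∫ x, f x ^ 2 * w x ∂μ := by
  obtain ⟨B, hB⟩ : ∃ B, B = ∫ x, w x ∂μ := ⟨_, rfl⟩
  obtain ⟨I1, hI⟩ : ∃ I1, I1 = ∫ x, f x * w x ∂μ := ⟨_, rfl⟩
  obtain ⟨A, hA⟩ : ∃ A, A = ∫ x, f x ^ 2 * w x ∂μ := ⟨_, rfl⟩
  have hB0 : 0 ≤ B := by rw [hB]; exact integral_nonneg hw
  have key : ∀ c : ℝ, 0 ≤ A - 2 * c * I1 + c ^ 2 * B := by
    intro c
    have h3 : 0 ≤ ∫ x, (f x - c) ^ 2 * w x ∂μ := integral_nonneg fun x => mul_nonneg (sq_nonneg _) (hw x)
    have h4 : ∫ x, (f x - c) ^ 2 * w x ∂μ = A - 2 * c * I1 + c ^ 2 * B := by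
      have h5 : (fun x => (f x - c) ^ 2 * w x) = fun x => (f x ^ 2 * w x - 2 * c * (f x * w x)) + c ^ 2 * w x := by
        funext x
        ring
      have e1 : ∫ x, ((f x ^ 2 * w x - 2 * c * (f x * w x)) + c ^ 2 * w x) ∂μ =
          (∫ x, (f x ^ 2 * w x - 2 * c * (f x * w x)) ∂μ) + ∫ x, c ^ 2 * w x ∂μ :=
        integral_add (h2.sub (h1.const_mul _)) (hwi.const_mul _)
      have e2 : ∫ x, (f x ^ 2 * w x - 2 * c * (f x * w x)) ∂μ =
          (∫ x, f x ^ 2 * w x ∂μ) - ∫ x, 2 * c * (f x * w x) ∂μ :=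
        integral_sub h2 (h1.const_mul _)
      rw [h5, e1, e2, integral_const_mul, integral_const_mul, ← hA, ← hI, ← hB]
    rwa [h4] at h3
  rw [← hI, ← hB, ← hA]
  rcases hB0.eq_or_lt with h0 | h0
  · rw [← h0, zero_mul]
    have h5 : ∀ c : ℝ, 0 ≤ A - 2 * c * I1 := by
      intro c
      have := key c
      rw [← h0, mul_zero, add_zero] at this
      exact this
    by_contra hcon
    push Not at hcon
    have h6 := h5 ((A + 1) / (2 * I1))
    have hI0 : I1 ≠ 0 := by
      intro h
      rw [h] at hcon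
      norm_num at hcon
    have h7 : A - 2 * ((A + 1) / (2 * I1)) * I1 = -1 := by
      field_simp
      ring
    rw [h7] at h6
    norm_num at h6
  · have h5 := key (I1 / B)
    have h6 : A - 2 * (I1 / B) * I1 + (I1 / B) ^ 2 * B = (B * A - I1 ^ 2) / B := by
      field_simp
      ring
    rw [h6] at h5
    have h7 := (div_nonneg_iff.1 h5)
    rcases h7 with h7 | h7
    · linarith [h7.1]
    · linarith [h7.2]

end

end Pool.Agent.Q198.SO
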